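import Pool.Agent.H336R5.PS.Defs
set_option autoImplicit false

/-! Mean of a product of trigonometric polynomials in `t log p`. -/

namespace Pool.Agent.H28R5.PS

open Filter Topology MeasureTheory
open Pool.Agent.H336R5.PS

/-- one inclusion -/
lemma no_pos (P : Finset ℕ) (hP : ∀ p ∈ P, p.Prime) (a b : ℕ → ℕ)
    (hab : ∀ p, a p = 0 ∨ b p = 0) (h : ∏ p ∈ P, p ^ a p = ∏ p ∈ P, p ^ b p) :
    ∀ q ∈ P, a q = 0 := by
  intro q hq
  by_contra h0
  have h1 : q ∣ ∏ p ∈ P, p ^ b p := by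
    rw [← h]
    exact (dvd_pow_self q h0).trans (Finset.dvd_prod_of_mem _ hq)
  obtain ⟨p, hp, hqp⟩ := (Nat.Prime.prime (hP q hq)).exists_mem_finset_dvd h1
  have h2 : q ∣ p := (hP q hq).dvd_of_dvd_pow hqp
  have h3 : q = p := (Nat.prime_dvd_prime_iff_eq (hP q hq) (hP p hp)).1 h2
  subst h3
  rcases hab q with h4 | h4
  · exact h0 h4
  · rw [h4, pow_zero] at hqp
    exact (hP q hq).one_lt.ne' (Nat.dvd_one.1 hqp)

lemma logind (P : Finset ℕ) (hP : ∀ p ∈ P, p.Prime) (k : ℕ → ℤ)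
    (h : ∑ p ∈ P, (k p : ℝ) * Real.log p = 0) : ∀ p ∈ P, k p = 0 := by
  have hA : ∀ a : ℕ → ℕ, Real.log ((∏ p ∈ P, p ^ a p : ℕ) : ℝ) = ∑ p ∈ P, (a p : ℝ) * Real.log p := by
    intro a
    rw [Nat.cast_prod, Real.log_prod (fun p hp => by
      have := (hP p hp).pos
      positivity)]
    refine Finset.sum_congr rfl fun p _ => ?_
    rw [Nat.cast_pow, Real.log_pow]
  have hpos : ∀ a : ℕ → ℕ, (0:ℝ) < ((∏ p ∈ P, p ^ a p : ℕ) : ℝ) := by
    intro a
    exact_mod_cast Finset.prod_pos fun p hp => pow_pos (hP p hp).pos _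
  have e : Real.log ((∏ p ∈ P, p ^ (k p).toNat : ℕ) : ℝ) =
      Real.log ((∏ p ∈ P, p ^ (-k p).toNat : ℕ) : ℝ) := by
    rw [hA, hA, ← sub_eq_zero, ← Finset.sum_sub_distrib, ← h]
    refine Finset.sum_congr rfl fun p _ => ?_
    rw [← sub_mul]
    congr 1
    have : ((k p).toNat : ℤ) - ((-k p).toNat : ℤ) = k p := by omega
    exact_mod_cast this
  have e2 : ∏ p ∈ P, p ^ (k p).toNat = ∏ p ∈ P, p ^ (-k p).toNat := by
    have := Real.log_injOn_pos (Set.mem_Ioi.2 (hpos _)) (Set.mem_Ioi.2 (hpos _)) e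
    exact_mod_cast this
  intro p hp
  have h1 := no_pos P hP _ _ (fun p => by omega) e2 p hp
  have h2 := no_pos P hP _ _ (fun p => by omega) e2.symm p hp
  omega

lemma mean_exp (lam : ℝ) :
    HasMean (fun t => Complex.exp (Complex.I * ((t * lam : ℝ) : ℂ))) (if lam = 0 then 1 else 0) := by
  unfold HasMean
  by_cases h : lam = 0
  · rw [if_pos h]
    refine (tendsto_const_nhds (x := (1:ℂ))).congr' ?_
    filter_upwards [eventually_gt_atTop 0] with T hT
    have hT' : (T : ℂ) ≠ 0 := by exact_mod_cast hT.ne'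
    simp only [h, mul_zero, Complex.ofReal_zero, Complex.exp_zero]
    rw [intervalIntegral.integral_const]
    simp only [Complex.real_smul]
    push_cast
    field_simp
    ring
  · rw [if_neg h]
    have hc : Complex.I * (lam : ℂ) ≠ 0 := mul_ne_zero Complex.I_ne_zero (by exact_mod_cast h)
    have hint : ∀ T : ℝ, ∫ t in (-T)..T, Complex.exp (Complex.I * ((t * lam : ℝ) : ℂ)) =
        (Complex.exp (Complex.I * (lam : ℂ) * (T : ℂ)) -
          Complex.exp (Complex.I * (lam : ℂ) * ((-T : ℝ) : ℂ))) / (Complex.I * (lam : ℂ)) := by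
      intro T
      rw [← integral_exp_mul_complex hc]
      refine intervalIntegral.integral_congr fun t _ => ?_
      congr 1
      push_cast
      ring
    rw [tendsto_zero_iff_norm_tendsto_zero]
    have hb : ∀ᶠ T : ℝ in atTop,
        ‖(1 / (2 * T) : ℂ) * ∫ t in (-T)..T, Complex.exp (Complex.I * ((t * lam : ℝ) : ℂ))‖ ≤
          (1 / |lam|) * T⁻¹ := by
      filter_upwards [eventually_gt_atTop 0] with T hT
      rw [hint, norm_mul, norm_div, norm_div, norm_mul, norm_mul, Complex.norm_I, one_mul,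
        Complex.norm_real, Complex.norm_real, Real.norm_eq_abs, Real.norm_eq_abs, abs_of_pos hT]
      have h1 : ‖Complex.exp (Complex.I * (lam : ℂ) * (T : ℂ)) -
          Complex.exp (Complex.I * (lam : ℂ) * ((-T : ℝ) : ℂ))‖ ≤ 2 := by
        refine (norm_sub_le _ _).trans ?_
        have e1 : Complex.I * (lam : ℂ) * (T : ℂ) = ((lam * T : ℝ) : ℂ) * Complex.I := by
          push_cast; ring
        have e2 : Complex.I * (lam : ℂ) * ((-T : ℝ) : ℂ) = ((lam * (-T) : ℝ) : ℂ) * Complex.I := by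
          push_cast; ring
        rw [e1, e2, Complex.norm_exp_ofReal_mul_I, Complex.norm_exp_ofReal_mul_I]
        norm_num
      have hl : 0 < |lam| := abs_pos.2 h
      have h2 : ‖(1:ℂ)‖ / (‖(2:ℂ)‖ * T) * (‖Complex.exp (Complex.I * (lam : ℂ) * (T : ℂ)) -
          Complex.exp (Complex.I * (lam : ℂ) * ((-T : ℝ) : ℂ))‖ / |lam|) ≤
          ‖(1:ℂ)‖ / (‖(2:ℂ)‖ * T) * (2 / |lam|) := by gcongr
      refine h2.trans (le_of_eq ?_)
      rw [norm_one, Complex.norm_ofNat]
      field_simp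
    have h0 : Tendsto (fun T : ℝ => (1 / |lam|) * T⁻¹) atTop (𝓝 0) := by
      simpa using tendsto_inv_atTop_zero.const_mul (1 / |lam|)
    exact squeeze_zero' (Eventually.of_forall fun T => norm_nonneg _) hb h0

lemma mean_sum {ι : Type} (s : Finset ι) (c : ι → ℂ) (lam : ι → ℝ) :
    HasMean (fun t => ∑ i ∈ s, c i * Complex.exp (Complex.I * ((t * lam i : ℝ) : ℂ)))
      (∑ i ∈ s, c i * if lam i = 0 then 1 else 0) := by
  unfold HasMean
  have e : ∀ T : ℝ, (1 / (2 * T) : ℂ) *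
      ∫ t in (-T)..T, ∑ i ∈ s, c i * Complex.exp (Complex.I * ((t * lam i : ℝ) : ℂ)) =
      ∑ i ∈ s, c i * ((1 / (2 * T) : ℂ) *
        ∫ t in (-T)..T, Complex.exp (Complex.I * ((t * lam i : ℝ) : ℂ))) := by
    intro T
    rw [intervalIntegral.integral_finsetSum, Finset.mul_sum]
    · refine Finset.sum_congr rfl fun i _ => ?_
      rw [intervalIntegral.integral_const_mul]
      ring
    · intro i _
      apply Continuous.intervalIntegrable
      fun_prop
  simp only [e]
  exact tendsto_finsetSum _ fun i _ => (mean_exp (lam i)).const_mul (c i)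

theorem taskA : TaskA := by
  intro P hP Q
  classical
  have e1 : (fun t : ℝ => ∏ p ∈ P, ∑ j ∈ Finset.Icc (-2 : ℤ) 2,
      Q p j * Complex.exp (Complex.I * ((t * (j * Real.log p) : ℝ) : ℂ))) =
      fun t : ℝ => ∑ k ∈ P.pi (fun _ => Finset.Icc (-2 : ℤ) 2),
        (∏ x ∈ P.attach, Q x.1 (k x.1 x.2)) *
          Complex.exp (Complex.I * ((t * (∑ x ∈ P.attach, (k x.1 x.2 : ℝ) * Real.log x.1) : ℝ) : ℂ)) := by
    funext t
    rw [Finset.prod_sum]
    refine Finset.sum_congr rfl fun k _ => ?_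
    rw [Finset.prod_mul_distrib, ← Complex.exp_sum]
    congr 2
    rw [Finset.mul_sum]
    push_cast
    rw [Finset.mul_sum]
  have e2 : ∏ p ∈ P, Q p 0 = ∑ k ∈ P.pi (fun _ => Finset.Icc (-2 : ℤ) 2),
      (∏ x ∈ P.attach, Q x.1 (k x.1 x.2)) *
        if (∑ x ∈ P.attach, (k x.1 x.2 : ℝ) * Real.log x.1) = 0 then 1 else 0 := by
    rw [Finset.sum_eq_single (fun _ _ => (0:ℤ))]
    · rw [if_pos (by simp), mul_one]
      exact (Finset.prod_attach P (fun p => Q p 0)).symm
    · intro k _ hne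
      rw [if_neg, mul_zero]
      intro h0
      apply hne
      have h1 : ∑ p ∈ P, (((if h : p ∈ P then k p h else 0 : ℤ) : ℤ) : ℝ) * Real.log p = 0 := by
        rw [← h0, ← Finset.sum_attach]
        refine Finset.sum_congr rfl fun x _ => ?_
        rw [dif_pos x.2]
      have h2 := logind P hP _ h1
      funext p hp
      have h3 := h2 p hp
      simpa [hp] using h3
    · intro h
      exact absurd (Finset.mem_pi.2 fun p _ => by simp) h
  rw [e1, e2]
  exact mean_sum _ _ _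

end Pool.Agent.H28R5.PS
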